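import Mathlib
import Pool.Agent.W825.KV.Fin
import Pool.Agent.W825.KV.Rep

set_option autoImplicit false

namespace Pool.Agent.W825.ST

open Configuration Configuration.ProjectivePlane Finset

variable {k : ℕ} {B : Finset (Finset (Fin (k ^ 2 + k + 1)))}

/-- blocks through a point -/
theorem card_through (hcard : ∀ b ∈ B, b.card = k + 1)
    (hone : ∀ x y : Fin (k ^ 2 + k + 1), x ≠ y → ∃! b, b ∈ B ∧ x ∈ b ∧ y ∈ b) (hk : 0 < k)
    (p : Fin (k ^ 2 + k + 1)) : (B.filter fun b => p ∈ b).card = k + 1 := by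
  classical
  have h1 : (univ.erase p) = (B.filter fun b => p ∈ b).biUnion fun b => b.erase p := by
    ext x
    simp only [mem_erase, mem_univ, and_true, mem_biUnion, mem_filter]
    constructor
    · intro hx
      obtain ⟨b, ⟨hb, hxb, hpb⟩, -⟩ := hone x p hx
      exact ⟨b, ⟨hb, hpb⟩, hx, hxb⟩
    · rintro ⟨b, -, hx, -⟩
      exact hx
  have h2 : (univ.erase p).card = ∑ b ∈ B.filter fun b => p ∈ b, (b.erase p).card := by
    rw [h1]
    refine card_biUnion ?_
    intro b hb c hc hbc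
    rw [mem_coe, mem_filter] at hb hc
    change Disjoint (b.erase p) (c.erase p)
    rw [disjoint_left]
    intro x hx hx'
    rw [mem_erase] at hx hx'
    refine hbc ((hone x p hx.1).unique ⟨hb.1, hx.2, hb.2⟩ ⟨hc.1, hx'.2, hc.2⟩)
  have h3 : ∑ b ∈ B.filter fun b => p ∈ b, (b.erase p).card =
      (B.filter fun b => p ∈ b).card * k := by
    rw [sum_const_nat]
    intro b hb
    rw [mem_filter] at hb
    rw [card_erase_of_mem hb.2, hcard b hb.1]
    rfl
  rw [card_erase_of_mem (mem_univ p), card_univ, Fintype.card_fin, h3] at h2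
  have h4 : (B.filter fun b => p ∈ b).card * k = (k + 1) * k := by
    rw [← h2]
    have : k ^ 2 + k + 1 - 1 = k ^ 2 + k := by omega
    rw [this]
    ring
  exact Nat.eq_of_mul_eq_mul_right hk h4

theorem card_blocks (hcard : ∀ b ∈ B, b.card = k + 1)
    (hone : ∀ x y : Fin (k ^ 2 + k + 1), x ≠ y → ∃! b, b ∈ B ∧ x ∈ b ∧ y ∈ b) (hk : 0 < k) :
    B.card = k ^ 2 + k + 1 := by
  classical
  have h1 := sum_card_bipartiteAbove_eq_sum_card_bipartiteBelow
    (s := (univ : Finset (Fin (k ^ 2 + k + 1)))) (t := B) (fun p b => p ∈ b)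
  have h2 : ∑ p : Fin (k ^ 2 + k + 1), (B.bipartiteAbove (fun p b => p ∈ b) p).card =
      (k ^ 2 + k + 1) * (k + 1) := by
    rw [sum_const_nat (m := k + 1)]
    · rw [card_univ, Fintype.card_fin]
    · intro p _
      exact card_through hcard hone hk p
  have h3 : ∑ b ∈ B, (univ.bipartiteBelow (fun (p : Fin (k ^ 2 + k + 1)) b => p ∈ b) b).card =
      B.card * (k + 1) := by
    rw [sum_const_nat (m := k + 1)]
    intro b hb
    have : univ.bipartiteBelow (fun (p : Fin (k ^ 2 + k + 1)) b => p ∈ b) b = b := by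
      ext x
      simp [bipartiteBelow]
    rw [this]
    exact hcard b hb
  rw [h2, h3] at h1
  exact (Nat.eq_of_mul_eq_mul_right (Nat.succ_pos k) h1).symm

/-- the lines -/
abbrev Ln (B : Finset (Finset (Fin (k ^ 2 + k + 1)))) : Type := {b : Finset (Fin (k ^ 2 + k + 1)) // b ∈ B}

instance instMem : Membership (Fin (k ^ 2 + k + 1)) (Ln B) := ⟨fun l p => p ∈ l.1⟩

theorem mem_def {p : Fin (k ^ 2 + k + 1)} {l : Ln B} : p ∈ l ↔ p ∈ l.1 := Iff.rfl

/-- three points on a block -/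
theorem exists_mem_ne (hcard : ∀ b ∈ B, b.card = k + 1) (hk : 2 < k) {b : Finset (Fin (k ^ 2 + k + 1))}
    (hb : b ∈ B) (x y : Fin (k ^ 2 + k + 1)) : ∃ z ∈ b, z ≠ x ∧ z ≠ y := by
  classical
  by_contra h
  push Not at h
  have h1 : b ⊆ {x, y} := by
    intro z hz
    rw [mem_insert, mem_singleton]
    by_cases hzx : z = x
    · exact Or.inl hzx
    · exact Or.inr (h z hz hzx)
  have h2 := card_le_card h1
  have h3 : ({x, y} : Finset (Fin (k ^ 2 + k + 1))).card ≤ 2 := card_le_two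
  rw [hcard b hb] at h2
  omega

theorem exists_not_mem (hcard : ∀ b ∈ B, b.card = k + 1) (hk : 2 < k)
    {b c : Finset (Fin (k ^ 2 + k + 1))} (hb : b ∈ B) (hc : c ∈ B) : ∃ z, z ∉ b ∧ z ∉ c := by
  classical
  by_contra h
  push Not at h
  have h1 : (univ : Finset (Fin (k ^ 2 + k + 1))) ⊆ b ∪ c := by
    intro z _
    rw [mem_union]
    by_cases hz : z ∈ b
    · exact Or.inl hz
    · exact Or.inr (h z hz)
  have h2 := (card_le_card h1).trans (card_union_le b c)
  rw [card_univ, Fintype.card_fin, hcard b hb, hcard c hc] at h2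
  nlinarith

/-- the nondegenerate configuration with lines -/
@[instance_reducible]
noncomputable def hasLines (hcard : ∀ b ∈ B, b.card = k + 1)
    (hone : ∀ x y : Fin (k ^ 2 + k + 1), x ≠ y → ∃! b, b ∈ B ∧ x ∈ b ∧ y ∈ b) (hk : 2 < k) :
    HasLines (Fin (k ^ 2 + k + 1)) (Ln B) where
  exists_point := fun l => by
    obtain ⟨z, hz, -⟩ := exists_not_mem hcard hk l.2 l.2
    exact ⟨z, hz⟩
  exists_line := fun p => by
    have h0 : 0 < k := by omega
    have h1 := card_through hcard hone h0 p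
    obtain ⟨b, hb⟩ := card_pos.1 (h1 ▸ Nat.succ_pos k : 0 < (B.filter fun b => p ∈ b).card)
    rw [mem_filter] at hb
    obtain ⟨x, hxb, hxp, -⟩ := exists_mem_ne hcard hk hb.1 p p
    obtain ⟨y, hy, -⟩ := exists_not_mem hcard hk hb.1 hb.1
    have hxy : x ≠ y := by rintro rfl; exact hy hxb
    obtain ⟨c, ⟨hc, hxc, hyc⟩, -⟩ := hone x y hxy
    refine ⟨⟨c, hc⟩, fun hpc => ?_⟩
    have := (hone x p hxp).unique ⟨hc, hxc, hpc⟩ ⟨hb.1, hxb, hb.2⟩
    rw [this] at hyc
    exact hy hyc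
  eq_or_eq := fun {p₁ p₂ l₁ l₂} h11 h21 h12 h22 => by
    by_cases hp : p₁ = p₂
    · exact Or.inl hp
    · exact Or.inr (Subtype.ext ((hone p₁ p₂ hp).unique ⟨l₁.2, h11, h21⟩ ⟨l₂.2, h12, h22⟩))
  mkLine := fun {p₁ p₂} hp => ⟨(hone p₁ p₂ hp).choose, (hone p₁ p₂ hp).choose_spec.1.1⟩
  mkLine_ax := fun {p₁ p₂} hp => (hone p₁ p₂ hp).choose_spec.1.2

/-- the projective plane of a Steiner system -/
@[instance_reducible]
noncomputable def plane (hcard : ∀ b ∈ B, b.card = k + 1)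
    (hone : ∀ x y : Fin (k ^ 2 + k + 1), x ≠ y → ∃! b, b ∈ B ∧ x ∈ b ∧ y ∈ b) (hk : 2 < k) :
    ProjectivePlane (Fin (k ^ 2 + k + 1)) (Ln B) :=
  let _ := hasLines hcard hone hk
  have hc : Fintype.card (Fin (k ^ 2 + k + 1)) = Fintype.card (Ln B) := by
    rw [Fintype.card_fin, Fintype.card_coe, card_blocks hcard hone (by omega)]
  let hp := HasLines.hasPoints hc
  { hasLines hcard hone hk with
    mkPoint := hp.mkPoint
    mkPoint_ax := hp.mkPoint_ax
    exists_config := by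
      have h0 : 0 < k := by omega
      have h1 := card_through hcard hone h0 0
      obtain ⟨b, hb⟩ := card_pos.1 (h1 ▸ Nat.succ_pos k :
        0 < (B.filter fun b => (0 : Fin (k ^ 2 + k + 1)) ∈ b).card)
      rw [mem_filter] at hb
      obtain ⟨p3, hp3, hp3', -⟩ := exists_mem_ne hcard hk hb.1 0 0
      obtain ⟨q, hq, -⟩ := exists_not_mem hcard hk hb.1 hb.1
      obtain ⟨r, hr, hr0, hr3⟩ := exists_mem_ne hcard hk hb.1 0 p3
      have h0q : (0 : Fin (k ^ 2 + k + 1)) ≠ q := by rintro rfl; exact hq hb.2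
      obtain ⟨c, ⟨hc, h0c, hqc⟩, -⟩ := hone 0 q h0q
      have hrq : r ≠ q := by rintro rfl; exact hq hr
      obtain ⟨d, ⟨hd, hrd, hqd⟩, -⟩ := hone r q hrq
      obtain ⟨p1, hp1b, hp1c⟩ := exists_not_mem hcard hk hb.1 hc
      refine ⟨p1, 0, p3, ⟨d, hd⟩, ⟨b, hb.1⟩, ⟨c, hc⟩, hp1b, hp1c, ?_, hb.2, h0c, ?_, hp3, ?_⟩
      · intro h
        have := (hone r 0 hr0).unique ⟨hd, hrd, h⟩ ⟨hb.1, hr, hb.2⟩
        rw [this] at hqd
        exact hq hqd
      · intro h
        have := (hone r p3 hr3).unique ⟨hd, hrd, h⟩ ⟨hb.1, hr, hp3⟩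
        rw [this] at hqd
        exact hq hqd
      · intro h
        have := (hone p3 0 hp3').unique ⟨hc, h, h0c⟩ ⟨hb.1, hp3, hb.2⟩
        rw [this] at hqc
        exact hq hqc }

theorem order_eq (hcard : ∀ b ∈ B, b.card = k + 1)
    (hone : ∀ x y : Fin (k ^ 2 + k + 1), x ≠ y → ∃! b, b ∈ B ∧ x ∈ b ∧ y ∈ b) (hk : 2 < k) :
    @order (Fin (k ^ 2 + k + 1)) (Ln B) _ (plane hcard hone hk) = k := by
  let _ := plane hcard hone hk
  have h := ProjectivePlane.card_points (Fin (k ^ 2 + k + 1)) (Ln B)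
  rw [Fintype.card_fin] at h
  nlinarith [h, sq_nonneg ((order (Fin (k ^ 2 + k + 1)) (Ln B) : ℤ) - k)]

end Pool.Agent.W825.ST
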