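import Mathlib
import Pool.Agent.W825.ST.Plane

set_option autoImplicit false

namespace Pool.Agent.W825.ST

open Configuration Configuration.ProjectivePlane Finset

variable {k : ℕ} {B : Finset (Finset (Fin (k ^ 2 + k + 1)))}

theorem map_mul (g h : Equiv.Perm (Fin (k ^ 2 + k + 1))) (b : Finset (Fin (k ^ 2 + k + 1))) :
    b.map (g * h).toEmbedding = (b.map h.toEmbedding).map g.toEmbedding := by
  ext x
  simp only [mem_map_equiv]
  rfl

/-- action on blocks -/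
def act (G : Subgroup (Equiv.Perm (Fin (k ^ 2 + k + 1))))
    (hG : ∀ g ∈ G, ∀ b ∈ B, b.map g.toEmbedding ∈ B) : MulAction G (Ln B) where
  smul g l := ⟨l.1.map g.1.toEmbedding, hG g.1 g.2 l.1 l.2⟩
  one_smul l := by
    apply Subtype.ext
    change l.1.map (1 : Equiv.Perm (Fin (k ^ 2 + k + 1))).toEmbedding = l.1
    ext x
    simp only [mem_map_equiv]
    rfl
  mul_smul g h l := Subtype.ext (map_mul g.1 h.1 l.1)

theorem steiner_test (hcard : ∀ b ∈ B, b.card = k + 1)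
    (hone : ∀ x y : Fin (k ^ 2 + k + 1), x ≠ y → ∃! b, b ∈ B ∧ x ∈ b ∧ y ∈ b)
    (G : Subgroup (Equiv.Perm (Fin (k ^ 2 + k + 1))))
    (hG : ∀ g ∈ G, ∀ b ∈ B, b.map g.toEmbedding ∈ B) (h2 : IsPGroup 2 G) (hk : k % 4 = 3)
    (hbad : ¬ Nat.card G ∣ k + 1 ∨ ∃ s t : G, s ≠ t ∧ orderOf s = 2 ∧ orderOf t = 2) :
    (k % 8 = 3 → ∃ x y : ℤ, (k : ℤ) = x ^ 2 + 2 * y ^ 2) ∧
      (k % 8 = 7 → ∃ x y : ℤ, (k : ℤ) = x ^ 2 - 2 * y ^ 2) := by
  classical
  have hk2 : 2 < k := by omega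
  have hn0 : 0 < k := by omega
  let _ := plane hcard hone hk2
  let _ := act G hG
  have ho : order (Fin (k ^ 2 + k + 1)) (Ln B) = k := order_eq hcard hone hk2
  have hcol : Pool.Agent.H634R3.WG.Col G (Fin (k ^ 2 + k + 1)) (Ln B) := by
    refine ⟨fun g p l => ?_, fun g hg => ?_⟩
    · change g.1 p ∈ l.1.map g.1.toEmbedding ↔ p ∈ l.1
      rw [mem_map_equiv, Equiv.symm_apply_apply]
    · apply Subtype.ext
      ext p
      have := hg p
      change g.1 p = p at this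
      rw [this]
      rfl
  have key : ∀ p : ℕ, p.Prime → Odd (k.factorization p) →
      p ≠ 2 ∧ (k % 8 = 3 → p % 8 = 1 ∨ p % 8 = 3) ∧ (k % 8 = 7 → p % 8 = 1 ∨ p % 8 = 7) := by
    intro p hp hodd
    have h1 := KV.two_group_test hcol (by rw [ho]; exact hk) h2 (by rw [ho]; exact hbad) hp hodd
      (Nat.not_dvd_ordCompl hp hn0.ne')
      (by rw [ho]; exact (Nat.ordProj_mul_ordCompl_eq_self k p).symm)
    rw [ho] at h1
    refine ⟨?_, h1⟩
    rintro rfl
    have h2 : k % 8 = 3 ∨ k % 8 = 7 := by omega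
    rcases h2 with h2 | h2
    · have := h1.1 h2; omega
    · have := h1.2 h2; omega
  constructor
  · intro h8
    apply KV.rp_of_primes hn0
    intro p hp hodd
    have : Fact p.Prime := ⟨hp⟩
    obtain ⟨h1, h2, -⟩ := key p hp hodd
    exact KV.rp_prime_two hp ((ZMod.exists_sq_eq_neg_two_iff h1).2 (h2 h8))
  · intro h8
    have h9 : KV.Rp (-2) k := by
      apply KV.rp_of_primes hn0
      intro p hp hodd
      have : Fact p.Prime := ⟨hp⟩
      obtain ⟨h1, -, h2⟩ := key p hp hodd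
      exact KV.rp_prime_neg_two hp ((ZMod.exists_sq_eq_two_iff h1).2 (h2 h8))
    obtain ⟨x, y, h⟩ := h9
    exact ⟨x, y, by rw [h]; ring⟩

end Pool.Agent.W825.ST
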